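import Pool.Agent.K7.H82.SU.Final

/-!
# A Suslinian continuum of infinite topological Hausdorff dimension: Q1 is false

`dimHE S` is the Hausdorff dimension of `S` with the convention `dim_H ∅ = -1`; `dimtH K` is the
topological Hausdorff dimension of `K`; `IsNondegContinuum C`: the subset `C` is compact, connected and
has more than one point; `HasFamily K c`: there is a family of pairwise disjoint non-degenerate continua
in `K` such that every set which meets all of them has Hausdorff dimension at least `c - 1`; `Q1` is
the first question: `dimtH K ≥ c` is equivalent to `HasFamily K c` for all non-empty compact metric spaces
`K` and all real `c`.

Theorem. Q1 is false. There is a continuum `K` with `dimtH K = ∞` in which every family of pairwise disjoint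
non-degenerate continua is countable; therefore `HasFamily K c` fails for every `c > 1`.

Construction. The space is a cell with entrances and exits indexed by the Cantor set, glued from
countably many smaller copies of itself. Six copies `T t b` (`t < 3`, `b < 2`) are arranged in three stages:
the continuum with index `x` passes at stage `t` through the copy `T t b` where `b` is the second digit,
the sum of the first two digits, or the first digit of `x`; so any two of these continua cross a
common copy. The other copies `R s k` form chains indexed by the finite words `s`; the chain of the word `s`
of length `n` follows, up to an error which tends to `0`, the way through the six copies with an
index beginning with `s`, and is followed by the chains of the two words which extend `s`. Hence a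
connected set which crosses the cell contains the complete way of some index through the six
copies, and by iteration any two continua which cross the same cell intersect. Every non-degenerate
continuum crosses one of the countably many cells. On the other hand the continua which meet a copy of
depth `m` have indices in a set of measure at most `2 ^ (-m)`, and the metric is chosen such that this
gives infinite Hausdorff dimension to every set which meets all the continua with index `x`.
-/

set_option autoImplicit false

namespace Pool.Agent.Results.MP_ab9307_an.SuslinianContinuum

open Pool.Agent.K7.H82.SU

/-- Q1 is false; moreover there is a continuum `K` with `dim_tH K = ∞` in which every family of pairwise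
disjoint non-degenerate continua is countable, so that the family of Q1 does not exist for any
`c > 1`. -/
theorem result : ¬ Q1 ∧ ∃ (K : Type) (_ : MetricSpace K), CompactSpace K ∧ ConnectedSpace K ∧
    dimtH K = ⊤ ∧
    (∀ F : Set (Set K), (∀ C ∈ F, IsNondegContinuum C) → F.PairwiseDisjoint id → F.Countable) ∧
    ∀ c : ℝ, 1 < c → ¬ HasFamily K c :=
  main

end Pool.Agent.Results.MP_ab9307_an.SuslinianContinuum
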